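import Pool.Agent.H95.FT.Base
import Pool.Agent.H5.PNT.PNT

namespace FTDens

open Finset Filter Topology

section CRT

variable (p : ℕ) (L : Finset ℕ)

/-- modulus -/
def md : ℕ := ∏ i : L, (i : ℕ)

theorem md_def : md L = ∏ i : L, (i : ℕ) := rfl

variable {p L}

theorem md_pos (hL : ∀ l ∈ L, l.Prime) : 0 < md L :=
  Finset.prod_pos fun i _ => (hL i i.2).pos

theorem pairwise_coprime (hL : ∀ l ∈ L, l.Prime) :
    Pairwise (Function.onFun Nat.Coprime (fun i : L => (i : ℕ))) := by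
  intro i j hij
  exact (Nat.coprime_primes (hL i i.2) (hL j j.2)).mpr (fun h => hij (Subtype.ext h))

/-- Chinese remainder isomorphism -/
noncomputable def crt (hL : ∀ l ∈ L, l.Prime) : ZMod (md L) ≃+* ((i : L) → ZMod (i : ℕ)) :=
  ZMod.prodEquivPi (fun i : L => (i : ℕ)) (pairwise_coprime hL)

theorem totient_md (hL : ∀ l ∈ L, l.Prime) : (md L).totient = ∏ i : L, ((i : ℕ) - 1) := by
  classical
  unfold md
  have key : ∀ s : Finset L, (∏ i ∈ s, (i : ℕ)).totient = ∏ i ∈ s, ((i : ℕ) - 1) := by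
    intro s
    induction s using Finset.induction_on with
    | empty => simp
    | insert a s ha ih =>
      rw [Finset.prod_insert ha, Finset.prod_insert ha, Nat.totient_mul, ih,
        Nat.totient_prime (hL a a.2)]
      exact Nat.Coprime.prod_right fun i hi => pairwise_coprime hL (fun h => ha (h ▸ hi))
  exact key Finset.univ

/-- allowed residues modulo the product -/
noncomputable def allowed (p : ℕ) (hL : ∀ l ∈ L, l.Prime) : Finset (ZMod (md L)) := by
  classical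
  haveI : NeZero (md L) := ⟨(md_pos hL).ne'⟩
  exact Finset.univ.filter (fun a => ∀ i : L,
    haveI : NeZero (i : ℕ) := ⟨(hL i i.2).ne_zero⟩
    crt hL a i ∈ good p (i : ℕ))

theorem card_allowed (hp : p.Prime) (hL : ∀ l ∈ L, l.Prime) (hL1 : ∀ l ∈ L, (l : ZMod p) = 1) :
    ((allowed p hL).card : ℝ) ≤ ∏ i : L, ((i : ℕ) - p : ℝ) := by
  classical
  haveI : NeZero (md L) := ⟨(md_pos hL).ne'⟩
  haveI : ∀ i : L, NeZero (i : ℕ) := fun i => ⟨(hL i i.2).ne_zero⟩
  set e := crt hL with he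
  have h1 : (allowed p hL).card ≤ (Fintype.piFinset (fun i : L => good p (i : ℕ))).card := by
    apply Finset.card_le_card_of_injOn (fun a => e a)
    · intro a ha
      rw [Finset.mem_coe, allowed, Finset.mem_filter] at ha
      rw [Finset.mem_coe, Fintype.mem_piFinset]
      exact ha.2
    · intro a _ b _ hab
      exact e.injective hab
  rw [Fintype.card_piFinset] at h1
  calc ((allowed p hL).card : ℝ) ≤ ((∏ i : L, (good p (i : ℕ)).card : ℕ) : ℝ) := by exact_mod_cast h1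
    _ = ∏ i : L, ((good p (i : ℕ)).card : ℝ) := by push_cast; rfl
    _ ≤ _ := by
      refine Finset.prod_le_prod (fun i _ => Nat.cast_nonneg _) fun i _ => ?_
      have := card_good hp (hL i i.2) (hL1 i i.2)
      have h2 : ((good p (i : ℕ)).card : ℝ) + p ≤ (i : ℕ) := by exact_mod_cast this
      linarith

theorem isUnit_of_allowed (hL : ∀ l ∈ L, l.Prime) {a : ZMod (md L)} (ha : a ∈ allowed p hL) :
    IsUnit a := by
  classical
  haveI : NeZero (md L) := ⟨(md_pos hL).ne'⟩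
  haveI : ∀ i : L, NeZero (i : ℕ) := fun i => ⟨(hL i i.2).ne_zero⟩
  haveI : ∀ i : L, Fact (Nat.Prime (i : ℕ)) := fun i => ⟨hL i i.2⟩
  set e := crt hL with he
  rw [allowed, Finset.mem_filter] at ha
  have h1 : IsUnit (e a) := by
    rw [Pi.isUnit_iff]
    intro i
    have := ha.2 i
    rw [good, Finset.mem_filter] at this
    exact isUnit_iff_ne_zero.mpr this.2.1
  have h2 := h1.map e.symm
  rwa [e.symm_apply_apply] at h2

theorem natCast_mem_allowed (hp : p.Prime) (hL : ∀ l ∈ L, l.Prime)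
    (hL1 : ∀ l ∈ L, (l : ZMod p) = 1) {q : ℕ} (hq : q.Prime) (hqL : ∀ l ∈ L, l < q)
    (h : (∑ i ∈ range p, q ^ i) ∣ ∑ i ∈ range q, p ^ i) :
    ((q : ℕ) : ZMod (md L)) ∈ allowed p hL := by
  classical
  haveI : NeZero (md L) := ⟨(md_pos hL).ne'⟩
  haveI : ∀ i : L, NeZero (i : ℕ) := fun i => ⟨(hL i i.2).ne_zero⟩
  rw [allowed, Finset.mem_filter]
  refine ⟨Finset.mem_univ _, fun i => ?_⟩
  have hcast : crt hL ((q : ℕ) : ZMod (md L)) i = ((q : ℕ) : ZMod (i : ℕ)) := by
    rw [map_natCast]; rfl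
  rw [hcast, good, Finset.mem_filter]
  refine ⟨Finset.mem_univ _, ?_, ?_⟩
  · intro h0
    rw [ZMod.natCast_eq_zero_iff, Nat.prime_dvd_prime_iff_eq (hL i i.2) hq] at h0
    have := hqL i i.2
    omega
  · intro h0
    have h1 : ((∑ j ∈ range p, q ^ j : ℕ) : ZMod (i : ℕ)) = 0 := by push_cast; exact h0
    rw [ZMod.natCast_eq_zero_iff] at h1
    have := lt_of_dvd hp hq (hL i i.2) (hL1 i i.2) h1 h
    have := hqL i i.2
    omega

end CRT

/-- The exceptional primes up to `x`. -/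
noncomputable def exc (p x : ℕ) : Finset ℕ := by
  classical
  exact (Icc 1 x).filter (fun q => q.Prime ∧ p < q ∧
    (q ^ p - 1) / (q - 1) ∣ (p ^ q - 1) / (p - 1))

theorem exc_le {p : ℕ} (hp : p.Prime) {L : Finset ℕ} (hL : ∀ l ∈ L, l.Prime)
    (hL1 : ∀ l ∈ L, (l : ZMod p) = 1) (x : ℕ) :
    (exc p x).card ≤ (L.sup id) +
      ∑ a ∈ allowed p hL, (Pool.Agent.H5.PNT.primesIn (md L) a (x : ℝ)).card := by
  classical
  have h1 : exc p x ⊆ Icc 1 (L.sup id) ∪
      (allowed p hL).biUnion (fun a => Pool.Agent.H5.PNT.primesIn (md L) a (x : ℝ)) := by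
    intro q hq
    rw [exc, Finset.mem_filter] at hq
    obtain ⟨hq1, hq2, hq3, hq4⟩ := hq
    rw [Finset.mem_union]
    by_cases hqL : ∀ l ∈ L, l < q
    · right
      rw [Finset.mem_biUnion]
      have h4 : (∑ i ∈ range p, q ^ i) ∣ ∑ i ∈ range q, p ^ i := by
        rw [Nat.geomSum_eq hq2.two_le, Nat.geomSum_eq hp.two_le]
        exact hq4
      refine ⟨_, natCast_mem_allowed hp hL hL1 hq2 hqL h4, ?_⟩
      unfold Pool.Agent.H5.PNT.primesIn
      rw [Finset.mem_filter, Nat.floor_natCast]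
      exact ⟨hq1, hq2, rfl⟩
    · left
      push Not at hqL
      obtain ⟨l, hl, hle⟩ := hqL
      rw [Finset.mem_Icc] at hq1 ⊢
      exact ⟨hq1.1, hle.trans (Finset.le_sup (f := id) hl)⟩
  refine (Finset.card_le_card h1).trans ((Finset.card_union_le _ _).trans ?_)
  rw [Nat.card_Icc, Nat.add_sub_cancel]
  exact Nat.add_le_add_left Finset.card_biUnion_le _

/-- sets `L` with small product exist -/
theorem exists_L {p : ℕ} (hp : p.Prime) (δ : ℝ) (hδ : 0 < δ) :
    ∃ (L : Finset ℕ) (_ : ∀ l ∈ L, l.Prime), (∀ l ∈ L, (l : ZMod p) = 1) ∧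
      ∏ i : L, (((i : ℕ) : ℝ) - p) / (((i : ℕ) : ℝ) - 1) ≤ δ := by
  classical
  haveI : NeZero p := ⟨hp.ne_zero⟩
  have h1 := Pool.Agent.H6.not_summable_inv_prime_mod (q := p) (a := 1) isUnit_one
  rw [not_summable_iff_tendsto_nat_atTop_of_nonneg (fun n =>
    Set.indicator_nonneg (fun n _ => by positivity) n)] at h1
  obtain ⟨n, hn⟩ := (h1.eventually_ge_atTop (-Real.log δ)).exists
  set L := (Finset.range n).filter (fun l : ℕ => l.Prime ∧ (l : ZMod p) = 1) with hLdef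
  have hL : ∀ l ∈ L, l.Prime := fun l hl => (Finset.mem_filter.mp hl).2.1
  have hL1 : ∀ l ∈ L, (l : ZMod p) = 1 := fun l hl => (Finset.mem_filter.mp hl).2.2
  refine ⟨L, hL, hL1, ?_⟩
  have hsum : -Real.log δ ≤ ∑ l ∈ L, (1 : ℝ) / l := by
    refine hn.trans (le_of_eq ?_)
    rw [hLdef, Finset.sum_filter]
    refine Finset.sum_congr rfl fun l _ => ?_
    rw [Set.indicator_apply]
    rfl
  have hle : ∀ l ∈ L, (((l : ℕ) : ℝ) - p) / (((l : ℕ) : ℝ) - 1) ≤ Real.exp (-((1 : ℝ) / l)) ∧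
      0 ≤ (((l : ℕ) : ℝ) - p) / (((l : ℕ) : ℝ) - 1) := by
    intro l hl
    have hlp := hL l hl
    haveI : NeZero l := ⟨hlp.ne_zero⟩
    have hcg := card_good hp hlp (hL1 l hl)
    have h2 : p ≤ l := by omega
    have h3 : (2 : ℝ) ≤ l := by exact_mod_cast hlp.two_le
    have h4 : (p : ℝ) ≤ l := by exact_mod_cast h2
    have h5 : (2 : ℝ) ≤ p := by exact_mod_cast hp.two_le
    constructor
    · have e1 : (((l : ℕ) : ℝ) - p) / (((l : ℕ) : ℝ) - 1) ≤ 1 - 1 / l := by
        rw [div_le_iff₀ (by linarith)]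
        have h6 : (1 : ℝ) / l * l = 1 := by field_simp
        have h7 : (0 : ℝ) < 1 / l := by positivity
        nlinarith
      have e2 := Real.add_one_le_exp (-((1 : ℝ) / l))
      linarith
    · apply div_nonneg <;> linarith
  have e1 : ∏ i : L, (((i : ℕ) : ℝ) - p) / (((i : ℕ) : ℝ) - 1) =
      ∏ l ∈ L, (((l : ℕ) : ℝ) - p) / (((l : ℕ) : ℝ) - 1) :=
    Finset.prod_coe_sort L (fun l : ℕ => (((l : ℕ) : ℝ) - p) / (((l : ℕ) : ℝ) - 1))
  rw [e1]
  calc ∏ l ∈ L, (((l : ℕ) : ℝ) - p) / (((l : ℕ) : ℝ) - 1) ≤ ∏ l ∈ L, Real.exp (-((1 : ℝ) / l)) :=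
        Finset.prod_le_prod (fun l hl => (hle l hl).2) (fun l hl => (hle l hl).1)
    _ = Real.exp (∑ l ∈ L, -((1 : ℝ) / l)) := (Real.exp_sum _ _).symm
    _ ≤ Real.exp (Real.log δ) := by
      apply Real.exp_le_exp.mpr
      rw [Finset.sum_neg_distrib]
      linarith
    _ = δ := Real.exp_log hδ

theorem main {p : ℕ} (hp : p.Prime) :
    Tendsto (fun x : ℕ => ((exc p x).card : ℝ) / (Nat.primeCounting x : ℝ)) atTop (𝓝 0) := by
  classical
  rw [Metric.tendsto_atTop]
  intro ε hε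
  obtain ⟨L, hL, hL1, hprod⟩ := exists_L hp (ε / 8) (by positivity)
  haveI : NeZero (md L) := ⟨(md_pos hL).ne'⟩
  set A : ℝ := ((allowed p hL).card : ℝ) * (((md L).totient : ℝ))⁻¹ with hA
  have hA8 : A ≤ ε / 8 := by
    have h1 := card_allowed hp hL hL1
    have h2 : ((md L).totient : ℝ) = ∏ i : L, (((i : ℕ) : ℝ) - 1) := by
      rw [totient_md hL]
      push_cast
      refine Finset.prod_congr rfl fun i _ => ?_
      rw [Nat.cast_sub (hL i i.2).one_le]
      simp
    have h3 : 0 < ((md L).totient : ℝ) := by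
      exact_mod_cast Nat.totient_pos.mpr (md_pos hL)
    calc A ≤ (∏ i : L, (((i : ℕ) : ℝ) - p)) * (((md L).totient : ℝ))⁻¹ :=
          mul_le_mul_of_nonneg_right h1 (by positivity)
      _ = ∏ i : L, (((i : ℕ) : ℝ) - p) / (((i : ℕ) : ℝ) - 1) := by
        rw [h2, ← div_eq_mul_inv, Finset.prod_div_distrib]
      _ ≤ _ := hprod
  -- the upper bound
  have hreal : Tendsto (fun x : ℝ => ((L.sup id : ℕ) : ℝ) * (Real.log x / x) +
      ∑ a ∈ allowed p hL, ((Pool.Agent.H5.PNT.primesIn (md L) a x).card : ℝ) * Real.log x / x)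
      atTop (𝓝 (((L.sup id : ℕ) : ℝ) * 0 + ∑ _a ∈ allowed p hL, (((md L).totient : ℝ))⁻¹)) := by
    refine Tendsto.add (Tendsto.const_mul _ ?_) (tendsto_finset_sum _ fun a ha => ?_)
    · have := Real.isLittleO_log_id_atTop.tendsto_div_nhds_zero
      simpa using this
    · exact Pool.Agent.H5.PNT.pi_ap (md L) a (isUnit_of_allowed hL ha)
  have e2 : (((L.sup id : ℕ) : ℝ) * 0 + ∑ _a ∈ allowed p hL, (((md L).totient : ℝ))⁻¹) = A := by
    rw [mul_zero, zero_add, Finset.sum_const, nsmul_eq_mul]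
  rw [e2] at hreal
  have hnat := hreal.comp tendsto_natCast_atTop_atTop
  have hpi := (Pool.Agent.H5.PNT.pi_tendsto).comp tendsto_natCast_atTop_atTop
  have ev1 := hnat.eventually (gt_mem_nhds (show A < ε / 4 by linarith))
  have ev2 := hpi.eventually (lt_mem_nhds (show (1 / 2 : ℝ) < 1 by norm_num))
  obtain ⟨N, hN⟩ := (ev1.and (ev2.and (eventually_ge_atTop 3))).exists_forall_of_atTop
  refine ⟨N, fun x hx => ?_⟩
  obtain ⟨h1, h2, h3⟩ := hN x hx
  simp only [Function.comp] at h1 h2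
  rw [Nat.floor_natCast] at h2
  have hx3 : (3 : ℝ) ≤ x := by exact_mod_cast h3
  have hlog : 0 < Real.log x := Real.log_pos (by linarith)
  have hx0 : (0 : ℝ) < x := by linarith
  have hpipos : (0 : ℝ) < (Nat.primeCounting x : ℝ) := by
    by_contra hcon
    have h0 : (Nat.primeCounting x : ℝ) = 0 := le_antisymm (not_lt.mp hcon) (Nat.cast_nonneg _)
    rw [h0] at h2; norm_num at h2
  rw [Real.dist_eq, sub_zero, abs_of_nonneg (by positivity), div_lt_iff₀ hpipos]
  have h4 : ((exc p x).card : ℝ) ≤ ((L.sup id : ℕ) : ℝ) +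
      ∑ a ∈ allowed p hL, ((Pool.Agent.H5.PNT.primesIn (md L) a (x : ℝ)).card : ℝ) := by
    exact_mod_cast exc_le hp hL hL1 x
  have h5 : ((exc p x).card : ℝ) * (Real.log x / x) < ε / 4 := by
    refine lt_of_le_of_lt (mul_le_mul_of_nonneg_right h4 (by positivity)) ?_
    refine lt_of_le_of_lt (le_of_eq ?_) h1
    rw [add_mul, Finset.sum_mul]
    congr 1
    refine Finset.sum_congr rfl fun a _ => ?_
    ring
  have h6 : (1 / 2 : ℝ) < (Nat.primeCounting x : ℝ) * (Real.log x / x) := by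
    rw [← mul_div_assoc]; exact h2
  have h7 : 0 < Real.log x / x := by positivity
  by_contra hcon
  push Not at hcon
  have h8 : ε * (Nat.primeCounting x : ℝ) * (Real.log x / x) ≤
      ((exc p x).card : ℝ) * (Real.log x / x) := mul_le_mul_of_nonneg_right hcon h7.le
  nlinarith

end FTDens
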