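import Mathlib
import Pool.Agent.H6.Dens

namespace FTDens

open Finset

/-- If the divisibility holds, every prime factor `l = 1 mod p` of `Φ(q,p)` is larger than `q`. -/
theorem lt_of_dvd {p q l : ℕ} (hp : p.Prime) (hq : q.Prime) (hl : l.Prime)
    (hl1 : (l : ZMod p) = 1) (h1 : l ∣ ∑ i ∈ range p, q ^ i)
    (h2 : (∑ i ∈ range p, q ^ i) ∣ ∑ i ∈ range q, p ^ i) : q < l := by
  haveI := Fact.mk hl
  haveI := Fact.mk hp
  have hlp : p < l := by
    have h3 : (p : ℤ) ∣ (l : ℤ) - 1 := by
      rw [← ZMod.intCast_zmod_eq_zero_iff_dvd]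
      push_cast; rw [hl1]; ring
    obtain ⟨t, ht⟩ := h3
    have hl2 := hl.two_le
    have hp2 := hp.two_le
    by_contra hcon
    push Not at hcon
    have ht0 : 0 < t := by
      by_contra h0
      push Not at h0
      have : (p : ℤ) * t ≤ 0 := mul_nonpos_of_nonneg_of_nonpos (by positivity) h0
      omega
    have : (p : ℤ) * 1 ≤ p * t := mul_le_mul_of_nonneg_left (by omega) (by positivity)
    omega
  have h3 : ((p : ℕ) : ZMod l) ^ q = 1 := by
    have h4 : l ∣ ∑ i ∈ range q, p ^ i := h1.trans h2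
    have h5 : ((∑ i ∈ range q, p ^ i : ℕ) : ZMod l) = 0 := (ZMod.natCast_eq_zero_iff _ _).mpr h4
    have h6 : (∑ i ∈ range q, (p : ZMod l) ^ i) * ((p : ZMod l) - 1) = (p : ZMod l) ^ q - 1 :=
      geom_sum_mul _ _
    push_cast at h5
    rw [h5, zero_mul] at h6
    exact (sub_eq_zero.mp h6.symm)
  have h4 : orderOf ((p : ℕ) : ZMod l) ∣ q := orderOf_dvd_of_pow_eq_one h3
  rcases (Nat.dvd_prime hq).mp h4 with h5 | h5
  · exfalso
    rw [orderOf_eq_one_iff] at h5
    have h6 : ((p - 1 : ℕ) : ZMod l) = 0 := by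
      rw [Nat.cast_sub hp.one_le, h5]; simp
    rw [ZMod.natCast_eq_zero_iff] at h6
    have := Nat.le_of_dvd (by have := hp.two_le; omega) h6
    omega
  · have hne : ((p : ℕ) : ZMod l) ≠ 0 := by
      intro h0
      rw [h0, zero_pow hq.ne_zero] at h3
      exact zero_ne_one h3
    have h6 : orderOf ((p : ℕ) : ZMod l) ∣ l - 1 := ZMod.orderOf_dvd_card_sub_one hne
    rw [h5] at h6
    have := Nat.le_of_dvd (by have := hl.two_le; omega) h6
    omega

/-- Allowed residues modulo `l`. -/
noncomputable def good (p l : ℕ) [NeZero l] : Finset (ZMod l) := by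
  classical
  exact Finset.univ.filter (fun a => a ≠ 0 ∧ ∑ i ∈ range p, a ^ i ≠ 0)

theorem card_good {p l : ℕ} (hp : p.Prime) (hl : l.Prime) (hl1 : (l : ZMod p) = 1)
    [NeZero l] : (good p l).card + p ≤ l := by
  classical
  haveI := Fact.mk hl
  haveI := Fact.mk hp
  have hdvd : p ∣ l - 1 := by
    have h3 : (p : ℤ) ∣ (l : ℤ) - 1 := by
      rw [← ZMod.intCast_zmod_eq_zero_iff_dvd]
      push_cast; rw [hl1]; ring
    have := hl.one_le
    zify [this]
    exact h3
  obtain ⟨u, hu⟩ := exists_prime_orderOf_dvd_card (G := (ZMod l)ˣ) p (by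
    rw [ZMod.card_units_eq_totient, Nat.totient_prime hl]; exact hdvd)
  have hprim : IsPrimitiveRoot ((u : (ZMod l)ˣ) : ZMod l) p := by
    rw [← hu]
    exact IsPrimitiveRoot.coe_units_iff.mpr (IsPrimitiveRoot.orderOf u)
  set bad : Finset (ZMod l) := insert 0 ((Finset.Ico 1 p).image (fun i => ((u : (ZMod l)ˣ) : ZMod l) ^ i))
    with hbad
  have hcb : bad.card = p := by
    rw [hbad, Finset.card_insert_of_notMem, Finset.card_image_of_injOn]
    · rw [Nat.card_Ico]; have := hp.one_le; omega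
    · intro i hi j hj hij
      rw [Finset.mem_coe, Finset.mem_Ico] at hi hj
      exact hprim.pow_inj hi.2 hj.2 hij
    · intro h
      rw [Finset.mem_image] at h
      obtain ⟨i, _, hi⟩ := h
      exact (pow_ne_zero i (Units.ne_zero u)) hi
  have hdisj : Disjoint (good p l) bad := by
    rw [Finset.disjoint_left]
    intro a ha hb
    rw [good, Finset.mem_filter] at ha
    rw [hbad, Finset.mem_insert, Finset.mem_image] at hb
    rcases hb with hb | ⟨i, hi, rfl⟩
    · exact ha.2.1 hb
    · apply ha.2.2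
      rw [Finset.mem_Ico] at hi
      have h1 : ((u : (ZMod l)ˣ) : ZMod l) ^ i ≠ 1 := by
        intro h
        have := hprim.dvd_of_pow_eq_one i h
        have := Nat.le_of_dvd (by omega) this
        omega
      have h2 : (∑ j ∈ range p, (((u : (ZMod l)ˣ) : ZMod l) ^ i) ^ j) *
          (((u : (ZMod l)ˣ) : ZMod l) ^ i - 1) = (((u : (ZMod l)ˣ) : ZMod l) ^ i) ^ p - 1 :=
        geom_sum_mul _ _
      rw [← pow_mul, mul_comm i p, pow_mul, hprim.pow_eq_one, one_pow, sub_self] at h2
      rcases mul_eq_zero.mp h2 with h | h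
      · exact h
      · exact absurd (sub_eq_zero.mp h) h1
  have h := Finset.card_le_univ (good p l ∪ bad)
  rw [Finset.card_union_of_disjoint hdisj, hcb, ZMod.card] at h
  exact h

end FTDens
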